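import Pool.Agent.Brouwer.Union

/-!
# A contractible finite union of compact convex sets is a retract of the space
-/

set_option autoImplicit false

namespace Pool.Agent.Brouwer

/-- If the union of a finite family of compact convex sets in a finite dimensional space is
contractible then it is a retract of the space. -/
theorem retract_of_contractible {ι : Type*} [Finite ι] {E : Type*} [NormedAddCommGroup E]
    [NormedSpace ℝ E] [FiniteDimensional ℝ E] (K : ι → Set E) (hK : ∀ i, IsCompact (K i))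
    (hc : ∀ i, Convex ℝ (K i)) (H : E → ℝ → E)
    (hH : ContinuousOn (fun p : E × ℝ => H p.1 p.2) ((⋃ i, K i) ×ˢ Set.Icc (0 : ℝ) 1))
    (hm : ∀ x ∈ ⋃ i, K i, ∀ t ∈ Set.Icc (0 : ℝ) 1, H x t ∈ ⋃ i, K i)
    (h0 : ∀ x ∈ ⋃ i, K i, H x 0 = x) {x₀ : E} (hx₀ : x₀ ∈ ⋃ i, K i)
    (h1 : ∀ x ∈ ⋃ i, K i, H x 1 = x₀) :
    ∃ R : E → E, Continuous R ∧ (∀ y, R y ∈ ⋃ i, K i) ∧ ∀ x ∈ ⋃ i, K i, R x = x := by
  classical
  have hX : IsClosed (⋃ i, K i) := isClosed_iUnion_of_finite fun i => (hK i).isClosed
  obtain ⟨U, hU, hXU, r, hr, hrm, hrx⟩ := retract_union K hK hc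
  obtain ⟨V, hV, hXV, hVU⟩ := normal_exists_closure_subset hX hU hXU
  obtain ⟨l, hl0, hl1, hl⟩ := exists_continuous_zero_one_of_isClosed hX hV.isClosed_compl
    (Set.disjoint_compl_right_iff_subset.2 hXV)
  let R : E → E := fun y => if y ∈ closure V then H (r y) (l y) else x₀
  have hR1 : ∀ y ∈ closure V, R y = H (r y) (l y) := fun y hy => if_pos hy
  have hR2 : ∀ y ∈ Vᶜ, R y = x₀ := by
    intro y hy
    by_cases h : y ∈ closure V
    · rw [hR1 y h]
      have h2 : l y = 1 := hl1 hy
      rw [h2]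
      exact h1 _ (hrm (hVU h))
    · exact if_neg h
  have hc1 : ContinuousOn R (closure V) := by
    refine ContinuousOn.congr (f := fun y => H (r y) (l y)) ?_ hR1
    have h2 : ContinuousOn (fun y => (r y, l y)) (closure V) :=
      (hr.mono hVU).prodMk l.continuous.continuousOn
    exact hH.comp h2 fun y hy => ⟨hrm (hVU hy), hl y⟩
  have hc2 : ContinuousOn R Vᶜ := (continuousOn_const (c := x₀)).congr hR2
  have hcov : closure V ∪ Vᶜ = Set.univ := by
    refine Set.eq_univ_of_forall fun y => ?_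
    by_cases h : y ∈ V
    · exact Or.inl (subset_closure h)
    · exact Or.inr h
  refine ⟨R, ?_, ?_, ?_⟩
  · rw [← continuousOn_univ, ← hcov]
    exact hc1.union_of_isClosed hc2 isClosed_closure hV.isClosed_compl
  · intro y
    by_cases h : y ∈ closure V
    · rw [hR1 y h]
      exact hm _ (hrm (hVU h)) _ (hl y)
    · have : R y = x₀ := if_neg h
      rw [this]
      exact hx₀
  · intro x hx
    rw [hR1 x (subset_closure (hXV hx))]
    have h2 : l x = 0 := hl0 hx
    rw [h2, hrx x hx]
    exact h0 x hx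

end Pool.Agent.Brouwer
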