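import Mathlib

/-!
# A finite union of compact convex sets is a neighbourhood retract

Let `X` be the union of finitely many compact convex subsets of a finite dimensional real normed
space `E`. Then `X` is an absolute neighbourhood extensor for metric spaces (`ane_union`), and there
are an open set `U` of `E` which contains `X` and a retraction of `U` onto `X` (`retract_union`).
-/

set_option autoImplicit false

namespace Pool.Agent.Brouwer

/-- `X` is a neighbourhood extensor for the space `Y`: every continuous map from a closed subset of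
`Y` to `X` extends to an open neighbourhood of the closed set. -/
def NbhdExt (Y : Type*) [TopologicalSpace Y] {E : Type*} [TopologicalSpace E] (X : Set E) : Prop :=
  ∀ A : Set Y, IsClosed A → ∀ g : Y → E, ContinuousOn g A → Set.MapsTo g A X →
    ∃ U : Set Y, IsOpen U ∧ A ⊆ U ∧ ∃ G : Y → E, ContinuousOn G U ∧ Set.MapsTo G U X ∧
      Set.EqOn G g A

/-- the metric projection onto a complete convex set of a real inner product space -/
private theorem union_proj {H : Type*} [NormedAddCommGroup H] [InnerProductSpace ℝ H] {K : Set H}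
    (hn : K.Nonempty) (hK : IsComplete K) (hc : Convex ℝ K) :
    ∃ r : H → H, Continuous r ∧ (∀ x, r x ∈ K) ∧ ∀ x ∈ K, r x = x := by
  have h : ∀ u : H, ∃ v ∈ K, ‖u - v‖ = ⨅ w : K, ‖u - w‖ :=
    exists_norm_eq_iInf_of_complete_convex hn hK hc
  choose r hrK hr using h
  have hin : ∀ u, ∀ w ∈ K, inner ℝ (u - r u) (w - r u) ≤ 0 := fun u =>
    (norm_eq_iInf_iff_real_inner_le_zero hc (hrK u)).1 (hr u)
  have hlip : ∀ u v, ‖r u - r v‖ ≤ ‖u - v‖ := by
    intro u v
    have h1 := hin u (r v) (hrK v)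
    have h2 := hin v (r u) (hrK u)
    have h3 : ‖r u - r v‖ ^ 2 ≤ inner ℝ (u - v) (r u - r v) := by
      have e1 : inner ℝ (u - v) (r u - r v) = inner ℝ (r u - r v) (r u - r v) -
          inner ℝ (u - r u) (r v - r u) - inner ℝ (v - r v) (r u - r v) := by
        have e2 : r v - r u = -(r u - r v) := by abel
        rw [e2, inner_neg_right, sub_neg_eq_add, ← inner_add_left, ← inner_sub_left]
        congr 1
        abel
      rw [e1, real_inner_self_eq_norm_sq]
      linarith
    have h4 : inner ℝ (u - v) (r u - r v) ≤ ‖u - v‖ * ‖r u - r v‖ := real_inner_le_norm _ _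
    by_contra hlt
    push Not at hlt
    have h5 : 0 < ‖r u - r v‖ := lt_of_le_of_lt (norm_nonneg _) hlt
    nlinarith
  refine ⟨r, ?_, hrK, ?_⟩
  · have : LipschitzWith 1 r := LipschitzWith.of_dist_le_mul fun u v => by
      rw [dist_eq_norm, dist_eq_norm, NNReal.coe_one, one_mul]
      exact hlip u v
    exact this.continuous
  · intro x hx
    have h1 := hin x x hx
    rw [real_inner_self_eq_norm_sq] at h1
    have h2 : ‖x - r x‖ = 0 := by
      have := norm_nonneg (x - r x)
      nlinarith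
    exact (sub_eq_zero.1 (norm_eq_zero.1 h2)).symm

/-- A nonempty compact convex set in a finite dimensional space is a retract of the space. -/
theorem exists_retraction {E : Type*} [NormedAddCommGroup E] [NormedSpace ℝ E]
    [FiniteDimensional ℝ E] {K : Set E} (hK : IsCompact K) (hc : Convex ℝ K) (hn : K.Nonempty) :
    ∃ r : E → E, Continuous r ∧ (∀ x, r x ∈ K) ∧ ∀ x ∈ K, r x = x := by
  let e : E ≃L[ℝ] EuclideanSpace ℝ (Fin (Module.finrank ℝ E)) := toEuclidean
  obtain ⟨r, hr, hrK, hrx⟩ := union_proj (hn.image e) (hK.image e.continuous).isComplete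
    (hc.linear_image (e : E →ₗ[ℝ] EuclideanSpace ℝ (Fin (Module.finrank ℝ E))))
  refine ⟨fun x => e.symm (r (e x)), e.symm.continuous.comp (hr.comp e.continuous), ?_, ?_⟩
  · intro x
    obtain ⟨y, hy, hyx⟩ := hrK (e x)
    have : e.symm (r (e x)) = y := by
      rw [← hyx]
      exact e.symm_apply_apply y
    show e.symm (r (e x)) ∈ K
    rw [this]
    exact hy
  · intro x hx
    show e.symm (r (e x)) = x
    rw [hrx (e x) (Set.mem_image_of_mem e hx)]
    exact e.symm_apply_apply x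

/-- A compact convex set is an extensor. -/
private theorem union_convex {Y : Type*} [TopologicalSpace Y] [NormalSpace Y] {E : Type*}
    [NormedAddCommGroup E] [NormedSpace ℝ E] [FiniteDimensional ℝ E] {K : Set E}
    (hK : IsCompact K) (hc : Convex ℝ K) : NbhdExt Y K := by
  intro A hA g hg hm
  rcases K.eq_empty_or_nonempty with rfl | hn
  · refine ⟨∅, isOpen_empty, fun y hy => (hm hy).elim, g, continuousOn_empty g, ?_, ?_⟩
    · exact fun y hy => hy.elim
    · exact fun y hy => rfl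
  · obtain ⟨r, hr, hrK, hrx⟩ := exists_retraction hK hc hn
    obtain ⟨G, hG⟩ := ContinuousMap.exists_restrict_eq hA
      (⟨A.domRestrict g, continuousOn_iff_continuous_domRestrict.1 hg⟩ : C(A, E))
    have hGA : ∀ y ∈ A, G y = g y := fun y hy => congrArg (fun f : C(A, E) => f ⟨y, hy⟩) hG
    refine ⟨Set.univ, isOpen_univ, Set.subset_univ A, fun y => r (G y),
      (hr.comp G.continuous).continuousOn, fun y _ => hrK _, fun y hy => ?_⟩
    show r (G y) = g y
    rw [hGA y hy, hrx _ (hm hy)]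

/-- The union of two extensors whose intersection is an extensor. -/
private theorem union_step {Y : Type*} [PseudoEMetricSpace Y] {E : Type*} [TopologicalSpace E]
    {X₁ X₂ : Set E} (h₁ : IsClosed X₁) (h₂ : IsClosed X₂) (e₁ : NbhdExt Y X₁) (e₂ : NbhdExt Y X₂)
    (e₀ : NbhdExt Y (X₁ ∩ X₂)) : NbhdExt Y (X₁ ∪ X₂) := by
  classical
  intro A hA g hg hm
  set A₁ : Set Y := A ∩ g ⁻¹' X₁ with hA₁def
  set A₂ : Set Y := A ∩ g ⁻¹' X₂ with hA₂def
  have hA₁ : IsClosed A₁ := hg.preimage_isClosed_of_isClosed hA h₁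
  have hA₂ : IsClosed A₂ := hg.preimage_isClosed_of_isClosed hA h₂
  have hAor : ∀ y ∈ A, y ∈ A₁ ∨ y ∈ A₂ := fun y hy =>
    (hm hy).imp (fun h => ⟨hy, h⟩) (fun h => ⟨hy, h⟩)
  set Y₁ : Set Y := {y | Metric.infEDist y A₁ ≤ Metric.infEDist y A₂} with hY₁def
  set Y₂ : Set Y := {y | Metric.infEDist y A₂ ≤ Metric.infEDist y A₁} with hY₂def
  have hY₁ : IsClosed Y₁ := isClosed_le Metric.continuous_infEDist Metric.continuous_infEDist
  have hY₂ : IsClosed Y₂ := isClosed_le Metric.continuous_infEDist Metric.continuous_infEDist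
  have hY : ∀ y, y ∈ Y₁ ∨ y ∈ Y₂ := fun y =>
    le_total (Metric.infEDist y A₁) (Metric.infEDist y A₂)
  have hAY₁ : ∀ y ∈ A, y ∈ Y₁ → y ∈ A₁ := by
    intro y hy hy1
    rcases hAor y hy with h | h
    · exact h
    · have h0 : Metric.infEDist y A₂ = 0 := Metric.infEDist_zero_of_mem h
      have h3 : Metric.infEDist y A₁ ≤ Metric.infEDist y A₂ := hy1
      rw [h0] at h3
      rw [Metric.mem_iff_infEDist_zero_of_closed hA₁]
      exact le_antisymm h3 zero_le
  have hAY₂ : ∀ y ∈ A, y ∈ Y₂ → y ∈ A₂ := by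
    intro y hy hy2
    rcases hAor y hy with h | h
    · have h0 : Metric.infEDist y A₁ = 0 := Metric.infEDist_zero_of_mem h
      have h3 : Metric.infEDist y A₂ ≤ Metric.infEDist y A₁ := hy2
      rw [h0] at h3
      rw [Metric.mem_iff_infEDist_zero_of_closed hA₂]
      exact le_antisymm h3 zero_le
    · exact h
  -- the extension near the intersection
  obtain ⟨U₀, hU₀, hAU₀, G₀, hG₀, hG₀m, hG₀g⟩ := e₀ (A₁ ∩ A₂) (hA₁.inter hA₂) g
    (hg.mono fun y hy => hy.1.1) (fun y hy => ⟨hy.1.2, hy.2.2⟩)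
  obtain ⟨O, hO, hAO, hOU⟩ := normal_exists_closure_subset (hA₁.inter hA₂) hU₀ hAU₀
  set W : Set Y := Y₁ ∩ Y₂ ∩ closure O with hWdef
  have hW : IsClosed W := (hY₁.inter hY₂).inter isClosed_closure
  have hG₀W : ContinuousOn G₀ W := hG₀.mono fun y hy => hOU hy.2
  have hG₀Wm : ∀ y ∈ W, G₀ y ∈ X₁ ∩ X₂ := fun y hy => hG₀m (hOU hy.2)
  have hgW : ∀ y ∈ A, y ∈ W → g y = G₀ y := fun y hy hyW =>
    (hG₀g ⟨hAY₁ y hy hyW.1.1, hAY₂ y hy hyW.1.2⟩).symm
  -- the two sides
  have side : ∀ (B : Set Y) (Z : Set E), IsClosed B → B ⊆ A → NbhdExt Y Z →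
      (∀ y ∈ B, g y ∈ Z) → (∀ y ∈ W, G₀ y ∈ Z) →
      ∃ U : Set Y, IsOpen U ∧ B ⊆ U ∧ W ⊆ U ∧ ∃ G : Y → E, ContinuousOn G U ∧ Set.MapsTo G U Z ∧
        (∀ y ∈ B, G y = g y) ∧ ∀ y ∈ W, G y = G₀ y := by
    intro B Z hB hBA eZ hgZ hGZ
    let h : Y → E := fun y => if y ∈ B then g y else G₀ y
    have hhB : ∀ y ∈ B, h y = g y := fun y hy => if_pos hy
    have hhW : ∀ y ∈ W, h y = G₀ y := by
      intro y hy
      by_cases hyB : y ∈ B
      · rw [hhB y hyB, hgW y (hBA hyB) hy]
      · exact if_neg hyB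
    have hcont : ContinuousOn h (B ∪ W) := by
      refine ContinuousOn.union_of_isClosed ?_ ?_ hB hW
      · exact (hg.mono hBA).congr hhB
      · exact hG₀W.congr hhW
    obtain ⟨U, hU, hBU, G, hG, hGm, hGh⟩ := eZ (B ∪ W) (hB.union hW) h hcont (by
      rintro y (hy | hy)
      · rw [hhB y hy]
        exact hgZ y hy
      · rw [hhW y hy]
        exact hGZ y hy)
    refine ⟨U, hU, fun y hy => hBU (Or.inl hy), fun y hy => hBU (Or.inr hy), G, hG, hGm, ?_, ?_⟩
    · intro y hy
      rw [hGh (Or.inl hy), hhB y hy]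
    · intro y hy
      rw [hGh (Or.inr hy), hhW y hy]
  obtain ⟨U₁, hU₁, hAU₁, hWU₁, G₁, hG₁, hG₁m, hG₁A, hG₁W⟩ := side A₁ X₁ hA₁
    (fun y hy => hy.1) e₁ (fun y hy => hy.2) fun y hy => (hG₀Wm y hy).1
  obtain ⟨U₂, hU₂, hAU₂, hWU₂, G₂, hG₂, hG₂m, hG₂A, hG₂W⟩ := side A₂ X₂ hA₂
    (fun y hy => hy.1) e₂ (fun y hy => hy.2) fun y hy => (hG₀Wm y hy).2
  -- the union
  let G : Y → E := fun y => if y ∈ Y₁ then G₁ y else G₂ y
  have hGY₁ : ∀ y ∈ Y₁, G y = G₁ y := fun y hy => if_pos hy
  have hGY₂ : ∀ y ∈ Y₂, (y ∈ Y₁ → y ∈ O) → G y = G₂ y := by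
    intro y hy hyO
    by_cases hy1 : y ∈ Y₁
    · have hyW : y ∈ W := ⟨⟨hy1, hy⟩, subset_closure (hyO hy1)⟩
      rw [hGY₁ y hy1, hG₁W y hyW, hG₂W y hyW]
    · exact if_neg hy1
  have hUop : IsOpen ((U₁ ∩ Y₂ᶜ) ∪ (U₂ ∩ Y₁ᶜ) ∪ (U₁ ∩ U₂ ∩ O)) :=
    ((hU₁.inter hY₂.isOpen_compl).union (hU₂.inter hY₁.isOpen_compl)).union
      ((hU₁.inter hU₂).inter hO)
  refine ⟨(U₁ ∩ Y₂ᶜ) ∪ (U₂ ∩ Y₁ᶜ) ∪ (U₁ ∩ U₂ ∩ O), hUop, ?_, G, ?_, ?_, ?_⟩
  · intro y hy
    by_cases h1 : y ∈ A₁
    · by_cases h2 : y ∈ A₂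
      · exact Or.inr ⟨⟨hAU₁ h1, hAU₂ h2⟩, hAO ⟨h1, h2⟩⟩
      · exact Or.inl (Or.inl ⟨hAU₁ h1, fun h => h2 (hAY₂ y hy h)⟩)
    · have h2 : y ∈ A₂ := (hAor y hy).resolve_left h1
      exact Or.inl (Or.inr ⟨hAU₂ h2, fun h => h1 (hAY₁ y hy h)⟩)
  · intro y hy
    refine ContinuousAt.continuousWithinAt ?_
    rcases hy with (⟨hy1, hy2⟩ | ⟨hy1, hy2⟩) | ⟨⟨hy1, hy2⟩, hyO⟩
    · have h3 : ContinuousAt G₁ y := hG₁.continuousAt (hU₁.mem_nhds hy1)
      refine h3.congr ?_
      filter_upwards [hY₂.isOpen_compl.mem_nhds hy2] with z hz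
      exact (hGY₁ z ((hY z).resolve_right hz)).symm
    · have h3 : ContinuousAt G₂ y := hG₂.continuousAt (hU₂.mem_nhds hy1)
      refine h3.congr ?_
      filter_upwards [hY₁.isOpen_compl.mem_nhds hy2] with z hz
      exact (if_neg hz).symm
    · have h3 : ContinuousAt G₁ y := hG₁.continuousAt (hU₁.mem_nhds hy1)
      have h4 : ContinuousAt G₂ y := hG₂.continuousAt (hU₂.mem_nhds hy2)
      by_cases hy3 : y ∈ Y₁
      · by_cases hy4 : y ∈ Y₂
        · have h5 : ContinuousWithinAt G Y₁ y :=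
            h3.continuousWithinAt.congr hGY₁ (hGY₁ y hy3)
          have h6 : ContinuousWithinAt G (Y₂ ∩ O) y :=
            h4.continuousWithinAt.congr (fun z hz => hGY₂ z hz.1 fun _ => hz.2)
              (hGY₂ y hy4 fun _ => hyO)
          refine (h5.union h6).continuousAt (Filter.mem_of_superset (hO.mem_nhds hyO) ?_)
          intro z hz
          rcases hY z with h | h
          · exact Or.inl h
          · exact Or.inr ⟨h, hz⟩
        · refine h3.congr ?_
          filter_upwards [hY₂.isOpen_compl.mem_nhds hy4] with z hz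
          exact (hGY₁ z ((hY z).resolve_right hz)).symm
      · refine h4.congr ?_
        filter_upwards [hY₁.isOpen_compl.mem_nhds hy3] with z hz
        exact (if_neg hz).symm
  · intro y hy
    by_cases h : y ∈ Y₁
    · rw [hGY₁ y h]
      apply Or.inl
      apply hG₁m
      rcases hy with (hy | hy) | hy
      · exact hy.1
      · exact absurd h hy.2
      · exact hy.1.1
    · have h2 : y ∈ Y₂ := (hY y).resolve_left h
      rw [hGY₂ y h2 fun h' => absurd h' h]
      apply Or.inr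
      apply hG₂m
      rcases hy with (hy | hy) | hy
      · exact absurd h2 hy.2
      · exact hy.1
      · exact hy.1.2
  · intro y hy
    by_cases h1 : y ∈ Y₁
    · rw [hGY₁ y h1, hG₁A y (hAY₁ y hy h1)]
    · have h2 : y ∈ Y₂ := (hY y).resolve_left h1
      rw [hGY₂ y h2 fun h => absurd h h1, hG₂A y (hAY₂ y hy h2)]

/-- The union of the sets of a finite family of compact convex sets. -/
private theorem union_finset {Y : Type*} [PseudoEMetricSpace Y] {E : Type*} [NormedAddCommGroup E]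
    [NormedSpace ℝ E] [FiniteDimensional ℝ E] {ι : Type*} (s : Finset ι) :
    ∀ K : ι → Set E, (∀ i, IsCompact (K i)) → (∀ i, Convex ℝ (K i)) →
      NbhdExt Y (⋃ i ∈ s, K i) := by
  classical
  induction s using Finset.induction_on with
  | empty =>
    intro K _ _
    simp only [Finset.notMem_empty, Set.iUnion_of_empty, Set.iUnion_empty]
    exact union_convex isCompact_empty convex_empty
  | insert a s ha ih =>
    intro K hK hc
    rw [Finset.set_biUnion_insert]
    refine union_step (hK a).isClosed ?_ (union_convex (hK a) (hc a)) (ih K hK hc) ?_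
    · exact (s.isCompact_biUnion fun i _ => hK i).isClosed
    · rw [Set.inter_iUnion₂]
      exact ih (fun i => K a ∩ K i) (fun i => (hK a).inter_right (hK i).isClosed)
        fun i => (hc a).inter (hc i)

/-- The union of a finite family of compact convex sets in a finite dimensional space is an
absolute neighbourhood extensor for metric spaces. -/
theorem ane_union {ι : Type*} [Finite ι] {E : Type*} [NormedAddCommGroup E] [NormedSpace ℝ E]
    [FiniteDimensional ℝ E] (K : ι → Set E) (hK : ∀ i, IsCompact (K i))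
    (hc : ∀ i, Convex ℝ (K i)) {Y : Type*} [PseudoEMetricSpace Y] (A : Set Y) (hA : IsClosed A)
    (g : Y → E) (hg : ContinuousOn g A) (hm : Set.MapsTo g A (⋃ i, K i)) :
    ∃ U : Set Y, IsOpen U ∧ A ⊆ U ∧ ∃ G : Y → E, ContinuousOn G U ∧
      Set.MapsTo G U (⋃ i, K i) ∧ Set.EqOn G g A := by
  have : Fintype ι := Fintype.ofFinite ι
  have h := union_finset (Y := Y) Finset.univ K hK hc
  simp only [Finset.mem_univ, Set.iUnion_true] at h
  exact h A hA g hg hm

/-- The union of a finite family of compact convex sets in a finite dimensional space is a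
neighbourhood retract. -/
theorem retract_union {ι : Type*} [Finite ι] {E : Type*} [NormedAddCommGroup E] [NormedSpace ℝ E]
    [FiniteDimensional ℝ E] (K : ι → Set E) (hK : ∀ i, IsCompact (K i))
    (hc : ∀ i, Convex ℝ (K i)) :
    ∃ U : Set E, IsOpen U ∧ (⋃ i, K i) ⊆ U ∧ ∃ r : E → E, ContinuousOn r U ∧
      Set.MapsTo r U (⋃ i, K i) ∧ ∀ x ∈ ⋃ i, K i, r x = x :=
  ane_union K hK hc (⋃ i, K i) (isClosed_iUnion_of_finite fun i => (hK i).isClosed) id
    continuousOn_id fun _ hx => hx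

/-- A continuous map from the union of a finite family of compact convex sets to a union of this
kind extends to a neighbourhood. -/
theorem exists_nbhd_map {ι : Type*} [Finite ι] {E : Type*} [NormedAddCommGroup E]
    [NormedSpace ℝ E] [FiniteDimensional ℝ E] (K : ι → Set E) (hK : ∀ i, IsCompact (K i))
    (hc : ∀ i, Convex ℝ (K i)) (f : E → E) (hf : ContinuousOn f (⋃ i, K i))
    (hm : Set.MapsTo f (⋃ i, K i) (⋃ i, K i)) :
    ∃ U : Set E, IsOpen U ∧ (⋃ i, K i) ⊆ U ∧ ∃ F : E → E, ContinuousOn F U ∧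
      Set.MapsTo F U (⋃ i, K i) ∧ Set.EqOn F f (⋃ i, K i) :=
  ane_union K hK hc (⋃ i, K i) (isClosed_iUnion_of_finite fun i => (hK i).isClosed) f hf hm

end Pool.Agent.Brouwer
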