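import Pool.Agent.Brouwer.Cube
import Pool.Agent.Brouwer.Union

/-! # The fixed point theorem of Brouwer for compact convex sets -/

set_option autoImplicit false

namespace Pool.Agent.Brouwer

/-- The fixed point theorem of Brouwer for compact convex sets. -/
theorem brouwer_convex {E : Type*} [NormedAddCommGroup E] [NormedSpace ℝ E]
    [FiniteDimensional ℝ E] {K : Set E} (hK : IsCompact K) (hc : Convex ℝ K) (hn : K.Nonempty)
    (f : E → E) (hf : ContinuousOn f K) (hm : Set.MapsTo f K K) : ∃ x ∈ K, f x = x := by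
  obtain ⟨r, hr, hrK, hrx⟩ := exists_retraction hK hc hn
  let e : E ≃L[ℝ] (Fin (Module.finrank ℝ E) → ℝ) := (Module.finBasis ℝ E).equivFunL
  obtain ⟨R, hR⟩ := (hK.image e.continuous).isBounded.exists_norm_le
  set C : ℝ := max R 1 with hC
  have hC1 : 1 ≤ C := le_max_right _ _
  have hCp : 0 < C := by linarith
  have hbd : ∀ x ∈ K, ∀ i, |e x i| ≤ C := by
    intro x hx i
    have h1 : ‖e x‖ ≤ R := hR _ (Set.mem_image_of_mem e hx)
    have h2 : ‖e x i‖ ≤ ‖e x‖ := norm_le_pi_norm (e x) i
    rw [Real.norm_eq_abs] at h2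
    exact h2.trans (h1.trans (le_max_left _ _))
  let φ : (Fin (Module.finrank ℝ E) → ℝ) → E := fun t => e.symm (fun i => 2 * C * t i - C)
  let ψ : E → (Fin (Module.finrank ℝ E) → ℝ) := fun x i => (e x i + C) / (2 * C)
  have hφψ : ∀ x, φ (ψ x) = x := by
    intro x
    show e.symm (fun i => 2 * C * ((e x i + C) / (2 * C)) - C) = x
    have : (fun i => 2 * C * ((e x i + C) / (2 * C)) - C) = e x := by
      funext i
      field_simp
      ring
    rw [this]
    exact e.symm_apply_apply x
  have hφc : Continuous φ := by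
    apply e.symm.continuous.comp
    fun_prop
  have hψc : Continuous ψ := by
    refine continuous_pi fun i => ?_
    have h1 : Continuous fun x => e x i := (continuous_apply i).comp e.continuous
    exact (h1.add continuous_const).div_const _
  have hψK : ∀ x ∈ K, ψ x ∈ Set.Icc (0 : Fin (Module.finrank ℝ E) → ℝ) 1 := by
    intro x hx
    constructor
    · intro i
      have := abs_le.1 (hbd x hx i)
      show 0 ≤ (e x i + C) / (2 * C)
      apply div_nonneg <;> linarith
    · intro i
      have := abs_le.1 (hbd x hx i)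
      show (e x i + C) / (2 * C) ≤ 1
      rw [div_le_one (by linarith)]
      linarith
  obtain ⟨t, -, ht⟩ := brouwer_cube (Module.finrank ℝ E) (fun t => ψ (f (r (φ t))))
    (by
      apply hψc.comp_continuousOn
      apply hf.comp (hr.comp hφc).continuousOn
      intro t _
      exact hrK _)
    (by
      intro t _
      exact hψK _ (hm (hrK _)))
  have h1 : f (r (φ t)) = φ t := by
    have h2 := congrArg φ ht
    rwa [hφψ] at h2
  have h3 : φ t ∈ K := h1 ▸ hm (hrK _)
  refine ⟨φ t, h3, ?_⟩
  rw [hrx _ h3] at h1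
  exact h1

/-- The fixed point property passes from a compact convex set to its retracts. -/
theorem brouwer_retract {E : Type*} [NormedAddCommGroup E] [NormedSpace ℝ E]
    [FiniteDimensional ℝ E] {K X : Set E} (hK : IsCompact K) (hc : Convex ℝ K) (hn : K.Nonempty)
    (hXK : X ⊆ K) (r : E → E) (hr : ContinuousOn r K) (hrX : Set.MapsTo r K X)
    (hrx : ∀ x ∈ X, r x = x) (f : E → E) (hf : ContinuousOn f X) (hm : Set.MapsTo f X X) :
    ∃ x ∈ X, f x = x := by
  obtain ⟨x, hx, hfx⟩ := brouwer_convex hK hc hn (fun x => f (r x)) (hf.comp hr hrX)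
    (fun x hx => hXK (hm (hrX hx)))
  have h1 : x ∈ X := by
    have h2 : f (r x) = x := hfx
    rw [← h2]
    exact hm (hrX hx)
  refine ⟨x, h1, ?_⟩
  have h2 : f (r x) = x := hfx
  rwa [hrx x h1] at h2

/-- The same for subspaces `X` which are retracts of `K` through maps between the subtypes. -/
theorem brouwer_retract_subtype {E : Type*} [NormedAddCommGroup E] [NormedSpace ℝ E]
    [FiniteDimensional ℝ E] {K X : Set E} (hK : IsCompact K) (hc : Convex ℝ K) (hn : K.Nonempty)
    (hXK : X ⊆ K) (r : K → X) (hr : Continuous r)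
    (hrx : ∀ x : X, r (Set.inclusion hXK x) = x) (f : X → X) (hf : Continuous f) :
    ∃ x, f x = x := by
  obtain ⟨ρ, hρ, hρK, hρx⟩ := exists_retraction hK hc hn
  let g : E → E := fun x => f (r ⟨ρ x, hρK x⟩)
  have hg : Continuous g := by
    apply continuous_subtype_val.comp
    exact hf.comp (hr.comp (hρ.subtype_mk _))
  obtain ⟨x, hx, hfx⟩ := brouwer_convex hK hc hn g hg.continuousOn
    (fun x _ => hXK (f (r ⟨ρ x, hρK x⟩)).2)
  have hxX : x ∈ X := by
    rw [← hfx]
    exact (f (r ⟨ρ x, hρK x⟩)).2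
  refine ⟨⟨x, hxX⟩, ?_⟩
  apply Subtype.ext
  have h1 : (⟨ρ x, hρK x⟩ : K) = Set.inclusion hXK ⟨x, hxX⟩ := Subtype.ext (hρx x hx)
  have h2 : ((f (r ⟨ρ x, hρK x⟩) : X) : E) = x := hfx
  rw [h1, hrx] at h2
  exact h2

end Pool.Agent.Brouwer
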