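import Mathlib

/-!
# The fixed point theorem of Brouwer for the cube

The combinatorial part is a cubical form of the lemma of Sperner: if `φ i : {0, .., m} ^ n → ℤ / 2`
is `0` on the face `v i = 0` and `1` on the face `v i = m`, for all `i`, then the cup product of the
coboundaries of the functions `φ i` (a cubical cochain of degree `n`) has the sum `1` over all cubes
of the grid, by the theorem of Stokes. Hence there is a cube of the grid on which no `φ i` is
constant.
-/

set_option autoImplicit false

namespace Pool.Agent.Brouwer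

section Cochains

variable {n : ℕ}

/-- the coboundary of a cubical cochain; the cube with the directions `A` at the point `v` -/
private def dd (ω : (Fin n → ℕ) → Finset (Fin n) → ZMod 2) (v : Fin n → ℕ)
    (A : Finset (Fin n)) : ZMod 2 :=
  ∑ a ∈ A, (ω (v + Pi.single a 1) (A.erase a) + ω v (A.erase a))

private lemma dd_dd (ω : (Fin n → ℕ) → Finset (Fin n) → ZMod 2) (v : Fin n → ℕ)
    (A : Finset (Fin n)) : dd (dd ω) v A = 0 := by
  have h : dd (dd ω) v A = ∑ x ∈ A.offDiag,
      ((ω (v + Pi.single x.1 1 + Pi.single x.2 1) ((A.erase x.1).erase x.2) +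
        ω (v + Pi.single x.1 1) ((A.erase x.1).erase x.2)) +
      (ω (v + Pi.single x.2 1) ((A.erase x.1).erase x.2) + ω v ((A.erase x.1).erase x.2))) := by
    have e : A.offDiag = (A ×ˢ A).filter fun x => x.2 ≠ x.1 := by
      ext x
      simp only [Finset.mem_offDiag, Finset.mem_filter, Finset.mem_product]
      tauto
    rw [e, Finset.sum_filter, Finset.sum_product]
    unfold dd
    refine Finset.sum_congr rfl fun a _ => ?_
    rw [← Finset.sum_add_distrib, ← Finset.sum_filter, Finset.filter_ne']
  rw [h]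
  refine Finset.sum_involution (fun x _ => x.swap) ?_ ?_ ?_ ?_
  · rintro ⟨a, b⟩ -
    have e : v + Pi.single b 1 + Pi.single a 1 = v + Pi.single a 1 + Pi.single b 1 :=
      add_right_comm _ _ _
    show (ω (v + Pi.single a 1 + Pi.single b 1) ((A.erase a).erase b) +
        ω (v + Pi.single a 1) ((A.erase a).erase b)) +
      (ω (v + Pi.single b 1) ((A.erase a).erase b) + ω v ((A.erase a).erase b)) +
      ((ω (v + Pi.single b 1 + Pi.single a 1) ((A.erase b).erase a) +
        ω (v + Pi.single b 1) ((A.erase b).erase a)) +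
      (ω (v + Pi.single a 1) ((A.erase b).erase a) + ω v ((A.erase b).erase a))) = 0
    rw [e, Finset.erase_right_comm (a := b) (b := a)]
    have h2 : (2 : ZMod 2) = 0 := by decide
    linear_combination (ω (v + Pi.single a 1 + Pi.single b 1) ((A.erase a).erase b) +
      ω (v + Pi.single a 1) ((A.erase a).erase b) + ω (v + Pi.single b 1) ((A.erase a).erase b) +
      ω v ((A.erase a).erase b)) * h2
  · rintro ⟨a, b⟩ h' - h''
    have := (Finset.mem_offDiag.1 h').2.2
    exact this (congrArg Prod.snd h'').symm.symm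
  · rintro ⟨a, b⟩ h'
    rw [Finset.mem_offDiag] at h' ⊢
    exact ⟨h'.2.1, h'.1, h'.2.2.symm⟩
  · rintro ⟨a, b⟩ -
    rfl

/-- the cup product of the coboundaries of the functions `φ i`, `i` in the list -/
private def cup (φ : Fin n → (Fin n → ℕ) → ZMod 2) :
    List (Fin n) → (Fin n → ℕ) → Finset (Fin n) → ZMod 2
  | [], _, A => if A = ∅ then 1 else 0
  | i :: l, v, A => ∑ a ∈ A, (φ i (v + Pi.single a 1) + φ i v) *
      cup φ l (v + Pi.single a 1) (A.erase a)

variable (φ : Fin n → (Fin n → ℕ) → ZMod 2)

private lemma cup_cons {l : List (Fin n)} (h : ∀ v A, dd (cup φ l) v A = 0) (i : Fin n)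
    (v : Fin n → ℕ) (A : Finset (Fin n)) :
    cup φ (i :: l) v A = dd (fun v A => φ i v * cup φ l v A) v A := by
  have h2 : (2 : ZMod 2) = 0 := by decide
  have h1 : φ i v * ∑ a ∈ A, (cup φ l (v + Pi.single a 1) (A.erase a) +
      cup φ l v (A.erase a)) = 0 := by
    have := h v A
    unfold dd at this
    rw [this, mul_zero]
  rw [cup, dd, ← add_zero (∑ a ∈ A, _), ← h1, Finset.mul_sum, ← Finset.sum_add_distrib]
  refine Finset.sum_congr rfl fun a _ => ?_
  linear_combination (φ i v * cup φ l (v + Pi.single a 1) (A.erase a)) * h2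

private lemma dd_cup (l : List (Fin n)) : ∀ v A, dd (cup φ l) v A = 0 := by
  induction l with
  | nil =>
    intro v A
    unfold dd
    refine Finset.sum_eq_zero fun a _ => ?_
    show cup φ [] (v + Pi.single a 1) (A.erase a) + cup φ [] v (A.erase a) = 0
    have h2 : (2 : ZMod 2) = 0 := by decide
    unfold cup
    split_ifs
    · linear_combination h2
    · exact add_zero _
  | cons i l ih =>
    intro v A
    have h : cup φ (i :: l) = dd fun v A => φ i v * cup φ l v A := by
      funext v A
      exact cup_cons φ ih i v A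
    rw [h, dd_dd]

private lemma cup_vanish {i : Fin n} {c : ℕ}
    (hc : ∀ v w : Fin n → ℕ, v i = c → w i = c → φ i v = φ i w) :
    ∀ (l : List (Fin n)) (v : Fin n → ℕ) (A : Finset (Fin n)), i ∈ l → v i = c → i ∉ A →
      cup φ l v A = 0 := by
  intro l
  induction l with
  | nil =>
    intro v A h
    exact absurd h (List.not_mem_nil)
  | cons j l ih =>
    intro v A h hv hA
    rw [cup]
    refine Finset.sum_eq_zero fun a ha => ?_
    have hai : i ≠ a := fun e => hA (e ▸ ha)
    have hva : (v + Pi.single a 1 : Fin n → ℕ) i = c := by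
      rw [Pi.add_apply, Pi.single_eq_of_ne hai, add_zero, hv]
    rcases List.mem_cons.1 h with e | h
    · subst e
      rw [hc _ _ hva hv]
      have h2 : (2 : ZMod 2) = 0 := by decide
      linear_combination (φ i v * cup φ l (v + Pi.single a 1) (A.erase a)) * h2
    · rw [ih _ _ h hva fun h' => hA (Finset.mem_of_mem_erase h'), mul_zero]

private lemma cup_chain : ∀ (l : List (Fin n)) (v : Fin n → ℕ) (A : Finset (Fin n)),
    cup φ l v A ≠ 0 → ∀ j ∈ l, ∃ w w' : Fin n → ℕ,
      (∀ b, v b ≤ w b ∧ w b ≤ v b + if b ∈ A then 1 else 0) ∧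
      (∀ b, v b ≤ w' b ∧ w' b ≤ v b + if b ∈ A then 1 else 0) ∧ φ j w ≠ φ j w' := by
  intro l
  induction l with
  | nil =>
    intro v A _ j h
    exact absurd h (List.not_mem_nil)
  | cons i l ih =>
    intro v A h j hj
    rw [cup] at h
    obtain ⟨a, ha, h⟩ := Finset.exists_ne_zero_of_sum_ne_zero h
    have key : ∀ w : Fin n → ℕ, (∀ b, (v + Pi.single a 1 : Fin n → ℕ) b ≤ w b ∧
        w b ≤ (v + Pi.single a 1 : Fin n → ℕ) b + if b ∈ A.erase a then 1 else 0) →
        ∀ b, v b ≤ w b ∧ w b ≤ v b + if b ∈ A then 1 else 0 := by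
      intro w hw b
      have := hw b
      rw [Pi.add_apply] at this
      by_cases hb : b = a
      · subst hb
        rw [Pi.single_eq_same, if_neg (Finset.notMem_erase _ _)] at this
        rw [if_pos ha]
        omega
      · rw [Pi.single_eq_of_ne hb, add_zero] at this
        have e : (if b ∈ A.erase a then 1 else 0) = if b ∈ A then 1 else 0 := by
          simp [Finset.mem_erase, hb]
        rw [e] at this
        exact this
    rcases List.mem_cons.1 hj with e | hj
    · subst e
      refine ⟨v, v + Pi.single a 1, fun b => ⟨le_rfl, Nat.le_add_right _ _⟩, key _ fun b =>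
        ⟨le_rfl, Nat.le_add_right _ _⟩, fun e => ?_⟩
      rw [← e] at h
      apply h
      have h2 : (2 : ZMod 2) = 0 := by decide
      linear_combination (φ j v * cup φ l (v + Pi.single a 1) (A.erase a)) * h2
    · obtain ⟨w, w', h1, h2, h3⟩ := ih _ _ (right_ne_zero_of_mul h) j hj
      exact ⟨w, w', key w h1, key w' h2, h3⟩

end Cochains

section Stokes

variable {n : ℕ}

/-- the corners of the cubes with the directions `A` -/
private def box (m : ℕ) (A : Finset (Fin n)) (u : Fin n → ℕ) : Finset (Fin n → ℕ) :=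
  Fintype.piFinset fun b => if b ∈ A then Finset.range m else {u b}

private lemma mem_box {m : ℕ} {A : Finset (Fin n)} {u v : Fin n → ℕ} :
    v ∈ box m A u ↔ ∀ b, (b ∈ A → v b < m) ∧ (b ∉ A → v b = u b) := by
  unfold box
  rw [Fintype.mem_piFinset]
  refine forall_congr' fun b => ?_
  by_cases h : b ∈ A <;> simp [h]

private lemma box_sum (m : ℕ) {A : Finset (Fin n)} {a : Fin n} (ha : a ∈ A) (u : Fin n → ℕ)
    (g : (Fin n → ℕ) → ZMod 2) : ∑ v ∈ box m A u, g v =
      ∑ t ∈ Finset.range m, ∑ v ∈ box m (A.erase a) (Function.update u a t), g v := by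
  rw [← Finset.sum_fiberwise_of_maps_to (g := fun v : Fin n → ℕ => v a) (t := Finset.range m)]
  · refine Finset.sum_congr rfl fun t ht => Finset.sum_congr ?_ fun _ _ => rfl
    ext v
    rw [Finset.mem_filter, mem_box, mem_box]
    constructor
    · rintro ⟨h, rfl⟩ b
      by_cases hb : b = a
      · subst hb
        simp
      · simp only [Finset.mem_erase, hb, ne_eq, not_false_eq_true, true_and,
          Function.update_of_ne]
        exact h b
    · intro h
      have ht' := (h a).2 (Finset.notMem_erase _ _)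
      rw [Function.update_self] at ht'
      refine ⟨fun b => ?_, ht'⟩
      by_cases hb : b = a
      · subst hb
        rw [ht']
        exact ⟨fun _ => Finset.mem_range.1 ht, fun h' => absurd ha h'⟩
      · have := h b
        simp only [Finset.mem_erase, hb, ne_eq, not_false_eq_true, true_and,
          Function.update_of_ne] at this
        exact this
  · intro v hv
    exact Finset.mem_range.2 ((mem_box.1 hv a).1 ha)

private lemma box_shift (m : ℕ) {A : Finset (Fin n)} {a : Fin n} (ha : a ∉ A) (u : Fin n → ℕ)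
    (t : ℕ) (g : (Fin n → ℕ) → ZMod 2) :
    ∑ v ∈ box m A (Function.update u a t), g (v + Pi.single a 1) =
      ∑ v ∈ box m A (Function.update u a (t + 1)), g v := by
  have key : ∀ (s r : ℕ) (v : Fin n → ℕ), v ∈ box m A (Function.update u a s) →
      Function.update v a r ∈ box m A (Function.update u a r) := by
    intro s r v hv
    rw [mem_box] at hv ⊢
    intro b
    by_cases hb : b = a
    · subst hb
      rw [Function.update_self, Function.update_self]
      exact ⟨fun h => absurd h ha, fun _ => rfl⟩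
    · have := hv b
      rw [Function.update_of_ne hb] at this
      rw [Function.update_of_ne hb, Function.update_of_ne hb]
      exact this
  have hva : ∀ (s : ℕ) (v : Fin n → ℕ), v ∈ box m A (Function.update u a s) → v a = s := by
    intro s v hv
    have := (mem_box.1 hv a).2 ha
    rwa [Function.update_self] at this
  refine Finset.sum_nbij' (fun v => Function.update v a (t + 1)) (fun v => Function.update v a t)
    (fun v hv => key t (t + 1) v hv) (fun v hv => key (t + 1) t v hv) ?_ ?_ ?_
  · intro v hv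
    rw [Function.update_idem]
    conv_rhs => rw [← Function.update_eq_self a v, hva t v hv]
  · intro v hv
    rw [Function.update_idem]
    conv_rhs => rw [← Function.update_eq_self a v, hva (t + 1) v hv]
  · intro v hv
    congr 1
    funext b
    by_cases hb : b = a
    · subst hb
      rw [Function.update_self, Pi.add_apply, Pi.single_eq_same, hva t v hv]
    · rw [Function.update_of_ne hb, Pi.add_apply, Pi.single_eq_of_ne hb, add_zero]

private lemma telescope (g : ℕ → ZMod 2) (m : ℕ) :
    ∑ t ∈ Finset.range m, (g (t + 1) + g t) = g m + g 0 := by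
  have h2 : (2 : ZMod 2) = 0 := by decide
  induction m with
  | zero =>
    rw [Finset.range_zero, Finset.sum_empty]
    linear_combination (-g 0) * h2
  | succ m ih =>
    rw [Finset.sum_range_succ, ih]
    linear_combination (g m) * h2

private lemma stokes (m : ℕ) (ω : (Fin n → ℕ) → Finset (Fin n) → ZMod 2)
    (A : Finset (Fin n)) (u : Fin n → ℕ) : ∑ v ∈ box m A u, dd ω v A =
      ∑ a ∈ A, (∑ v ∈ box m (A.erase a) (Function.update u a m), ω v (A.erase a) +
        ∑ v ∈ box m (A.erase a) (Function.update u a 0), ω v (A.erase a)) := by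
  unfold dd
  rw [Finset.sum_comm]
  refine Finset.sum_congr rfl fun a ha => ?_
  rw [box_sum m ha]
  rw [← telescope (fun t => ∑ v ∈ box m (A.erase a) (Function.update u a t), ω v (A.erase a)) m]
  refine Finset.sum_congr rfl fun t _ => ?_
  rw [Finset.sum_add_distrib, box_shift m (Finset.notMem_erase a A) u t
    (fun v => ω v (A.erase a))]

variable {φ : Fin n → (Fin n → ℕ) → ZMod 2} {m : ℕ}

private lemma sum_cup (h0 : ∀ i v, v i = 0 → φ i v = 0) (h1 : ∀ i v, v i = m → φ i v = 1) :
    ∀ (l : List (Fin n)), l.Nodup → ∀ u : Fin n → ℕ,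
      ∑ v ∈ box m l.toFinset u, cup φ l v l.toFinset = 1 := by
  intro l
  induction l with
  | nil =>
    intro _ u
    have e : box m (∅ : Finset (Fin n)) u = {u} := by
      ext v
      rw [mem_box, Finset.mem_singleton]
      constructor
      · intro h
        funext b
        exact (h b).2 (Finset.notMem_empty b)
      · rintro rfl b
        exact ⟨fun h => absurd h (Finset.notMem_empty b), fun _ => rfl⟩
    rw [List.toFinset_nil, e, Finset.sum_singleton, cup, if_pos rfl]
  | cons i l ih =>
    intro hl u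
    obtain ⟨hi, hl⟩ := List.nodup_cons.1 hl
    have hi' : i ∉ l.toFinset := fun h => hi (List.mem_toFinset.1 h)
    have hva : ∀ (s : ℕ) (a : Fin n) (A : Finset (Fin n)) (v : Fin n → ℕ),
        v ∈ box m (A.erase a) (Function.update u a s) → v a = s := by
      intro s a A v hv
      have := (mem_box.1 hv a).2 (Finset.notMem_erase _ _)
      rwa [Function.update_self] at this
    have e1 : ∀ v A, cup φ (i :: l) v A = dd (fun v A => φ i v * cup φ l v A) v A :=
      cup_cons φ (dd_cup φ l) i
    rw [Finset.sum_congr rfl fun v _ => e1 v _, stokes, List.toFinset_cons,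
      Finset.sum_insert hi', Finset.sum_eq_zero (s := l.toFinset), add_zero]
    · rw [Finset.sum_eq_zero (s := box m ((insert i l.toFinset).erase i)
        (Function.update u i 0)), add_zero]
      · rw [← ih hl (Function.update u i m)]
        have e2 : (insert i l.toFinset).erase i = l.toFinset := Finset.erase_insert hi'
        refine Finset.sum_congr (by rw [e2]) fun v hv => ?_
        rw [e2]
        have : v i = m := by
          have := (mem_box.1 hv i).2 hi'
          rwa [Function.update_self] at this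
        rw [h1 i v this, one_mul]
      · intro v hv
        rw [h0 i v (hva 0 i _ v hv), zero_mul]
    · intro a ha
      have ha' := List.mem_toFinset.1 ha
      rw [Finset.sum_eq_zero, Finset.sum_eq_zero, add_zero]
      · intro v hv
        rw [cup_vanish φ (i := a) (c := 0) (fun v w hv hw => by rw [h0 a v hv, h0 a w hw]) l v _
          ha' (hva 0 a _ v hv) (Finset.notMem_erase _ _), mul_zero]
      · intro v hv
        rw [cup_vanish φ (i := a) (c := m) (fun v w hv hw => by rw [h1 a v hv, h1 a w hw]) l v _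
          ha' (hva m a _ v hv) (Finset.notMem_erase _ _), mul_zero]

/-- A cubical form of the lemma of Sperner. -/
theorem exists_cube (h0 : ∀ i v, v i = 0 → φ i v = 0) (h1 : ∀ i v, v i = m → φ i v = 1) :
    ∃ v : Fin n → ℕ, (∀ b, v b < m) ∧ ∀ i, ∃ w w' : Fin n → ℕ,
      (∀ b, v b ≤ w b ∧ w b ≤ v b + 1) ∧ (∀ b, v b ≤ w' b ∧ w' b ≤ v b + 1) ∧
        φ i w = 0 ∧ φ i w' = 1 := by
  have h := sum_cup h0 h1 (List.finRange n) (List.nodup_finRange n) 0
  have h' : ∑ v ∈ box m (List.finRange n).toFinset 0,
      cup φ (List.finRange n) v (List.finRange n).toFinset ≠ 0 := by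
    rw [h]
    exact one_ne_zero
  obtain ⟨v, hv, hc⟩ := Finset.exists_ne_zero_of_sum_ne_zero h'
  refine ⟨v, fun b => (mem_box.1 hv b).1 (List.mem_toFinset.2 (List.mem_finRange b)),
    fun i => ?_⟩
  obtain ⟨w, w', hw, hw', hne⟩ := cup_chain φ _ v _ hc i (List.mem_finRange i)
  have k1 : ∀ b, v b ≤ w b ∧ w b ≤ v b + 1 := fun b =>
    ⟨(hw b).1, (hw b).2.trans (by split_ifs <;> omega)⟩
  have k2 : ∀ b, v b ≤ w' b ∧ w' b ≤ v b + 1 := fun b =>
    ⟨(hw' b).1, (hw' b).2.trans (by split_ifs <;> omega)⟩
  have h01 : ∀ z : ZMod 2, z = 0 ∨ z = 1 := by decide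
  rcases h01 (φ i w) with e | e <;> rcases h01 (φ i w') with e' | e'
  · exact absurd (e.trans e'.symm) hne
  · exact ⟨w, w', k1, k2, e, e'⟩
  · exact ⟨w', w, k2, k1, e', e⟩
  · exact absurd (e.trans e'.symm) hne

end Stokes

/-- The fixed point theorem of Brouwer for the cube `[0, 1] ^ n`. -/
theorem brouwer_cube (n : ℕ) (f : (Fin n → ℝ) → (Fin n → ℝ))
    (hf : ContinuousOn f (Set.Icc 0 1)) (hm : Set.MapsTo f (Set.Icc 0 1) (Set.Icc 0 1)) :
    ∃ x ∈ Set.Icc (0 : Fin n → ℝ) 1, f x = x := by
  classical
  have hK : IsCompact (Set.Icc (0 : Fin n → ℝ) 1) := isCompact_Icc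
  have hne : (Set.Icc (0 : Fin n → ℝ) 1).Nonempty := ⟨0, le_rfl, zero_le_one⟩
  obtain ⟨x₀, hx₀, hmin⟩ := hK.exists_isMinOn hne ((hf.sub continuousOn_id).norm)
  by_contra hcon
  push Not at hcon
  have hμ : 0 < ‖f x₀ - x₀‖ := norm_pos_iff.2 (sub_ne_zero.2 (hcon x₀ hx₀))
  set μ := ‖f x₀ - x₀‖ with hμdef
  have hmin' : ∀ x ∈ Set.Icc (0 : Fin n → ℝ) 1, μ ≤ ‖f x - x‖ := fun x hx => hmin hx
  obtain ⟨δ, hδ, hδf⟩ := Metric.uniformContinuousOn_iff.1
    (hK.uniformContinuousOn_of_continuous hf) (μ / 4) (by positivity)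
  obtain ⟨m, hm0⟩ := exists_nat_gt (max (1 / δ) (4 / μ))
  have hmδ : 1 / δ < m := (le_max_left _ _).trans_lt hm0
  have hmμ : 4 / μ < m := (le_max_right _ _).trans_lt hm0
  have hmpos : (0 : ℝ) < m := lt_trans (by positivity) hmδ
  have hmδ' : 1 / (m : ℝ) < δ := by
    rw [div_lt_iff₀ hmpos]
    rwa [div_lt_iff₀ hδ, mul_comm] at hmδ
  have hmμ' : 1 / (m : ℝ) < μ / 4 := by
    rw [div_lt_iff₀ hmpos]
    rw [div_lt_iff₀ hμ] at hmμ
    linarith
  -- the grid
  let g : (Fin n → ℕ) → Fin n → ℝ := fun v i => (v i : ℝ) / m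
  let φ : Fin n → (Fin n → ℕ) → ZMod 2 := fun i v =>
    if v i ≠ 0 ∧ (f (g v) i ≤ g v i ∨ v i = m) then 1 else 0
  obtain ⟨v, hv, hc⟩ := exists_cube (φ := φ) (m := m)
    (fun i v h => if_neg fun h' => h'.1 h)
    (fun i v h => if_pos ⟨by
      rintro h'
      rw [h'] at h
      rw [← h] at hmpos
      simp at hmpos, Or.inr h⟩)
  have hg : ∀ w : Fin n → ℕ, (∀ b, v b ≤ w b ∧ w b ≤ v b + 1) →
      g w ∈ Set.Icc (0 : Fin n → ℝ) 1 ∧ (∀ i, g v i ≤ g w i) ∧
        ∀ i, g w i ≤ g v i + 1 / m := by
    intro w hw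
    refine ⟨⟨fun i => div_nonneg (Nat.cast_nonneg _) hmpos.le, fun i => ?_⟩, fun i => ?_,
      fun i => ?_⟩
    · show (w i : ℝ) / m ≤ 1
      rw [div_le_one hmpos]
      have := hv i
      have := hw i
      exact_mod_cast (by omega : w i ≤ m)
    · show (v i : ℝ) / m ≤ (w i : ℝ) / m
      exact div_le_div_of_nonneg_right (by exact_mod_cast (hw i).1) hmpos.le
    · show (w i : ℝ) / m ≤ (v i : ℝ) / m + 1 / m
      rw [← add_div]
      exact div_le_div_of_nonneg_right (by exact_mod_cast (hw i).2) hmpos.le
  obtain ⟨hgv, -, -⟩ := hg v fun b => ⟨le_rfl, Nat.le_succ _⟩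
  have hclose : ∀ w : Fin n → ℕ, (∀ b, v b ≤ w b ∧ w b ≤ v b + 1) → ∀ i,
      |f (g w) i - f (g v) i| < μ / 4 := by
    intro w hw i
    obtain ⟨h1, h2, h3⟩ := hg w hw
    have hd : dist (g w) (g v) < δ := by
      refine lt_of_le_of_lt ?_ hmδ'
      rw [dist_pi_le_iff (by positivity)]
      intro j
      rw [Real.dist_eq, abs_of_nonneg (by linarith [h2 j])]
      linarith [h3 j]
    have := hδf _ h1 _ hgv hd
    refine lt_of_le_of_lt ?_ this
    rw [← Real.dist_eq]
    exact dist_le_pi_dist _ _ i
  have hfin : ‖f (g v) - g v‖ ≤ μ / 2 := by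
    rw [pi_norm_le_iff_of_nonneg (by positivity)]
    intro i
    obtain ⟨w, w', hw, hw', e, e'⟩ := hc i
    obtain ⟨h1, h2, h3⟩ := hg w hw
    obtain ⟨h1', h2', h3'⟩ := hg w' hw'
    have c1 := hclose w hw i
    have c2 := hclose w' hw' i
    rw [abs_lt] at c1 c2
    have e1 : g w i ≤ f (g w) i := by
      by_contra hlt
      push Not at hlt
      have hw0 : w i ≠ 0 := by
        intro h0
        have : g w i = 0 := by
          show (w i : ℝ) / m = 0
          rw [h0]
          simp
        rw [this] at hlt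
        exact absurd ((hm h1).1 i) (not_le.2 hlt)
      have : φ i w = 1 := if_pos ⟨hw0, Or.inl hlt.le⟩
      rw [e] at this
      exact zero_ne_one this
    have e2 : f (g w') i ≤ g w' i := by
      by_contra hlt
      have hw0 : w' i ≠ m := by
        intro h0
        have : g w' i = 1 := by
          show (w' i : ℝ) / m = 1
          rw [h0]
          exact div_self hmpos.ne'
        rw [this] at hlt
        exact hlt ((hm h1').2 i)
      have : φ i w' = 0 := if_neg fun h => h.2.elim (fun h => hlt h) hw0
      rw [e'] at this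
      exact one_ne_zero this
    rw [Pi.sub_apply, Real.norm_eq_abs, abs_le]
    constructor
    · linarith [h2 i, c1.1, c1.2]
    · linarith [h3' i, c2.1, c2.2]
  have := hmin' _ hgv
  linarith

end Pool.Agent.Brouwer
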